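import Mathlib
import Pool.Agent.H.MP_8a294c_nt.A

set_option autoImplicit false

namespace Pool.Agent.H.MP_06821b_nt

open PowerSeries Finset Pool.Agent.Lib.helper11.Mahler Pool.Agent.H.MP_918176_nt
  Pool.Agent.H.MP_8a294c_nt

noncomputable def Md (a : ℕ) : Submodule ℤ ℤ⟦X⟧ :=
  Submodule.span ℤ {f | ∃ i ≤ a, ∃ j : ℕ, f = X ^ i * r ^ j}

lemma gen_mem (a i j : ℕ) (h : i ≤ a) : X ^ i * r ^ j ∈ Md a :=
  Submodule.subset_span ⟨i, h, j, rfl⟩

lemma int_mem (a : ℕ) (c : ℤ) (f : ℤ⟦X⟧) (h : f ∈ Md a) : (c : ℤ⟦X⟧) * f ∈ Md a := by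
  rw [← zsmul_eq_mul]
  exact Submodule.smul_mem _ _ h

lemma mul_pow_mem (a k : ℕ) (f : ℤ⟦X⟧) (h : f ∈ Md a) : f * r ^ k ∈ Md a := by
  induction h using Submodule.span_induction with
  | mem f hf =>
    obtain ⟨i, hi, j, rfl⟩ := hf
    rw [mul_assoc, ← pow_add]
    exact gen_mem a i _ hi
  | zero => simp
  | add f g _ _ hf hg => exact add_mul f g _ ▸ add_mem hf hg
  | smul c f _ hf => exact smul_mul_assoc c f _ ▸ Submodule.smul_mem _ _ hf

lemma mul_aeval_mem (a : ℕ) (p : Polynomial ℤ) (f : ℤ⟦X⟧) (h : f ∈ Md a) :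
    f * Polynomial.aeval r p ∈ Md a := by
  induction p using Polynomial.induction_on' with
  | add p q hp hq => rw [map_add, mul_add]; exact add_mem hp hq
  | monomial k c =>
    rw [Polynomial.aeval_monomial, mul_left_comm, eq_intCast]
    exact int_mem _ _ _ (mul_pow_mem a k f h)

lemma X_r : X * (r + 1) = r - 1 := by
  rw [r]
  linear_combination (-1 - X) * g1

lemma U_mem (a : ℕ) (f : ℤ⟦X⟧) (h : f ∈ Md a) : U 2 f ∈ Md (a / 2) := by
  induction h using Submodule.span_induction with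
  | mem f hf =>
    obtain ⟨i, hi, j, rfl⟩ := hf
    have h0 : ∀ k, k ≤ a / 2 → (X : ℤ⟦X⟧) ^ k ∈ Md (a / 2) := fun k hk => by
      simpa using gen_mem (a / 2) k 0 hk
    obtain ⟨k, rfl | rfl⟩ := Nat.even_or_odd' i
    · rw [pow_mul, ← expand_X 2 two_ne_zero, ← map_pow, mul_comm, U_mul_expand, U_T, mul_comm]
      exact mul_aeval_mem _ _ _ (h0 k (by omega))
    · obtain ⟨p, hp⟩ := UX_pow j
      rw [pow_succ, pow_mul, ← expand_X 2 two_ne_zero, ← map_pow, mul_assoc, mul_comm,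
        U_mul_expand, hp, ← mul_assoc, X_r, mul_comm]
      have := mul_aeval_mem _ ((Polynomial.X - 1) * p) _ (h0 k (by omega))
      rwa [map_mul, map_sub, map_one, Polynomial.aeval_X] at this
  | zero => simp
  | add f g _ _ hf hg => rw [map_add]; exact add_mem hf hg
  | smul c f _ hf => rw [map_smul]; exact Submodule.smul_mem _ _ hf

lemma mem_zero (f : ℤ⟦X⟧) (h : f ∈ Md 0) : ∃ p : Polynomial ℤ, f = Polynomial.aeval r p := by
  induction h using Submodule.span_induction with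
  | mem f hf =>
    obtain ⟨i, hi, j, rfl⟩ := hf
    obtain rfl : i = 0 := by omega
    exact ⟨Polynomial.X ^ j, by simp⟩
  | zero => exact ⟨0, by simp⟩
  | add f g _ _ hf hg =>
    obtain ⟨p, rfl⟩ := hf
    obtain ⟨q, rfl⟩ := hg
    exact ⟨p + q, by simp⟩
  | smul c f _ hf =>
    obtain ⟨p, rfl⟩ := hf
    exact ⟨c • p, by simp⟩

lemma one_sub_mem (a : ℕ) : (1 - X : ℤ⟦X⟧) ^ a ∈ Md a := by
  rw [sub_pow]
  refine Submodule.sum_mem _ fun i _ => ?_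
  have := int_mem a ((-1) ^ (i + a) * a.choose i) _ (gen_mem a (a - i) 0 (by omega))
  push_cast at this
  convert this using 1
  ring

lemma r_sq : r ^ 2 + 1 = 2 * expand 2 two_ne_zero r * r := by
  rw [expand_r, r, g12]
  linear_combination (-1 - geo ℤ 2 * (1 - X ^ 2)) * g2

lemma r_pow (m : ℕ) : ∃ p q : Polynomial ℤ, r ^ 2 ^ (m + 1) = 1 + 2 ^ (m + 1) *
    (expand 2 two_ne_zero (Polynomial.aeval r p) +
      r * expand 2 two_ne_zero (Polynomial.aeval r q)) := by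
  induction m with
  | zero => exact ⟨-1, Polynomial.X, by simp; linear_combination r_sq⟩
  | succ m ih =>
    obtain ⟨p, q, h⟩ := ih
    refine ⟨p + 2 ^ m * (p ^ 2 - q ^ 2), q + 2 ^ m * (2 * p * q + 2 * Polynomial.X * q ^ 2), ?_⟩
    rw [pow_succ 2 (m + 1), pow_mul, h]
    simp only [map_add, map_mul, map_sub, map_pow, map_ofNat, Polynomial.aeval_X]
    linear_combination (2 ^ (m + 1)) ^ 2 *
      (expand 2 two_ne_zero (Polynomial.aeval r q)) ^ 2 * r_sq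

lemma L_mem (m a : ℕ) (f : ℤ⟦X⟧) (h : f ∈ Md a) :
    ∃ g ∈ Md (a / 2), U 2 (f * r ^ 2 ^ (m + 1)) = U 2 f + ((2 ^ (m + 1) : ℤ) : ℤ⟦X⟧) * g := by
  obtain ⟨p, q, hp⟩ := r_pow m
  refine ⟨U 2 f * Polynomial.aeval r p + U 2 (f * r ^ 1) * Polynomial.aeval r q,
    add_mem (mul_aeval_mem _ _ _ (U_mem _ _ h))
      (mul_aeval_mem _ _ _ (U_mem _ _ (mul_pow_mem _ 1 _ h))), ?_⟩
  rw [← U_mul_expand 2 two_ne_zero, ← U_mul_expand 2 two_ne_zero, ← map_add, ← U_int, ← map_add, hp]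
  congr 1
  push_cast
  ring

lemma state (m j : ℕ) : ∃ e ∈ Md (2 ^ (m + 1) / 2 ^ j), ∃ h ∈ Md (2 ^ (m + 1) / 2 ^ j),
    (∀ n, coeff n e = coeff (2 ^ j * n) ((1 - X : ℤ⟦X⟧) ^ 2 ^ (m + 1))) ∧
    ∀ N n, coeff (2 ^ j * n) ((1 - X) ^ 2 ^ (m + 1) * P (2 ^ (m + 1)) (N + j)) =
      coeff n ((e + ((2 ^ (m + 1) : ℤ) : ℤ⟦X⟧) * h) * P (2 ^ (m + 1)) N) := by
  induction j with
  | zero => exact ⟨_, by simpa using one_sub_mem _, 0, zero_mem _, by simp, by simp⟩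
  | succ j ih =>
    obtain ⟨e, he, h, hh, h1, h2⟩ := ih
    obtain ⟨g, hg, h3⟩ := L_mem m _ _ (add_mem he (int_mem _ (2 ^ (m + 1)) _ hh))
    rw [pow_succ 2 j, ← Nat.div_div_eq_div_mul]
    refine ⟨U 2 e, U_mem _ _ he, U 2 h + g, add_mem (U_mem _ _ hh) hg, fun n => ?_, fun N n => ?_⟩
    · rw [coeff_U, h1, mul_assoc]
    · rw [mul_assoc, show N + (j + 1) = N + 1 + j by ring, h2, ← coeff_U, P_succ, ← mul_assoc,
        U_mul_expand, h3, map_add, U_int, mul_add, add_assoc]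

lemma state' (m : ℕ) : ∃ p : Polynomial ℤ, ∀ N n,
    coeff (2 ^ (m + 2) * n) ((1 - X) ^ 2 ^ (m + 1) * P (2 ^ (m + 1)) (N + (m + 2))) =
      coeff n ((1 + ((2 ^ (m + 1) : ℤ) : ℤ⟦X⟧) * Polynomial.aeval r p) * P (2 ^ (m + 1)) N) := by
  obtain ⟨e, -, h, hh, h1, h2⟩ := state m (m + 2)
  rw [Nat.div_eq_of_lt (Nat.pow_lt_pow_right (by norm_num) (by omega))] at hh
  obtain ⟨p, rfl⟩ := mem_zero h hh
  obtain rfl : e = 1 := by
    ext n
    rw [h1, coeff_one]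
    split_ifs with h0
    · simp [h0]
    · have e1 : (1 - X : ℤ⟦X⟧) ^ 2 ^ (m + 1) =
          (((1 - Polynomial.X) ^ 2 ^ (m + 1) : Polynomial ℤ) : ℤ⟦X⟧) := by simp
      rw [e1, Polynomial.coeff_coe]
      refine Polynomial.coeff_eq_zero_of_natDegree_lt (Polynomial.natDegree_pow_le.trans_lt ?_)
      have h3 : (1 - Polynomial.X : Polynomial ℤ).natDegree ≤ 1 := by compute_degree
      have h4 : 2 ^ (m + 2) * 1 ≤ 2 ^ (m + 2) * n := Nat.mul_le_mul_left _ (by omega)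
      have h5 := Nat.mul_le_mul_left (2 ^ (m + 1)) h3
      have h6 : 2 ^ (m + 1) < 2 ^ (m + 2) := Nat.pow_lt_pow_right (by norm_num) (by omega)
      rw [mul_one] at h4 h5
      exact h5.trans_lt (h6.trans_le h4)
  exact ⟨p, h2⟩

lemma U_sub_pow (k : ℕ) : ∃ q : Polynomial ℤ,
    U 2 (r ^ k) = r ^ k + (r ^ 2 - 1) * Polynomial.aeval r q := by
  induction k using Nat.twoStepInduction with
  | zero => exact ⟨0, by simp [U_one]⟩
  | one => exact ⟨0, by simpa using u1⟩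
  | more k h0 h1 =>
    obtain ⟨p, hp⟩ := h0
    obtain ⟨q, hq⟩ := h1
    refine ⟨2 * Polynomial.X * q - p + Polynomial.X ^ k, ?_⟩
    rw [urec, hp, hq]
    simp only [map_add, map_sub, map_mul, map_pow, map_ofNat, Polynomial.aeval_X]
    ring

lemma L_sub (M : ℕ) (p : Polynomial ℤ) : ∃ q : Polynomial ℤ,
    U 2 (Polynomial.aeval r p * r ^ (2 * M)) =
      Polynomial.aeval r p + (r ^ 2 - 1) * Polynomial.aeval r q := by
  induction p using Polynomial.induction_on' with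
  | add p q hp hq =>
    obtain ⟨a, ha⟩ := hp
    obtain ⟨b, hb⟩ := hq
    refine ⟨a + b, ?_⟩
    rw [map_add, add_mul, map_add, ha, hb, map_add]
    ring
  | monomial k c =>
    obtain ⟨a, ha⟩ := U_sub_pow (k + 2 * M)
    obtain ⟨b, hb⟩ := sub_one_dvd_pow_sub_one ((Polynomial.X : Polynomial ℤ) ^ 2) M
    have hb' := congrArg (Polynomial.aeval r) hb
    simp only [map_sub, map_mul, map_pow, map_one, Polynomial.aeval_X] at hb'
    refine ⟨(c : Polynomial ℤ) * (a + Polynomial.X ^ k * b), ?_⟩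
    rw [Polynomial.aeval_monomial, eq_intCast, mul_assoc, ← pow_add, U_int, ha]
    simp only [map_add, map_mul, map_pow, map_intCast, Polynomial.aeval_X]
    linear_combination c * r ^ k * hb'

noncomputable def b (M n : ℕ) : ℤ := coeff n (∏ i ∈ range (n + 1), geo ℤ (2 ^ i) ^ M)

lemma b_eq (M n N : ℕ) (h : n ≤ N) : b M n = coeff n ((1 - X) ^ M * P M N) := by
  rw [stab M n N (n + 1) _ (lt2 _ _ h) (lt2 _ _ (by omega)), P, ← mul_assoc, ← mul_pow,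
    mul_comm (1 - X), g1, one_pow, one_mul, b]

lemma half (m t n : ℕ) : b (2 ^ (m + 1)) (2 ^ (m + t + 3) * n) ≡
    b (2 ^ (m + 1)) (2 ^ (m + t + 2) * n) [ZMOD 2 ^ (m + t + 3)] := by
  obtain ⟨p, hp⟩ := state' m
  obtain ⟨q, hq⟩ := L_sub (2 ^ m) p
  obtain ⟨s, -, hs, -⟩ := cheb m
  have h1 := U_T (2 ^ (m + 1))
  push_cast at h1
  rw [hs] at h1
  simp only [map_add, map_mul, map_pow, map_sub, map_one, map_ofNat, Polynomial.aeval_X] at h1
  rw [← pow_succ'] at hq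
  obtain ⟨N, hN⟩ : ∃ N, N = 2 ^ (m + t + 3) * n + 2 ^ (m + t + 2) * n + t := ⟨_, rfl⟩
  have h2 := dvd_A (2 ^ (m + 1)) t (s + q) N n (by omega)
  have e : U 2 ((1 + ((2 ^ (m + 1) : ℤ) : ℤ⟦X⟧) * Polynomial.aeval r p) * r ^ 2 ^ (m + 1)) =
      (1 + ((2 ^ (m + 1) : ℤ) : ℤ⟦X⟧) * Polynomial.aeval r p) +
        ((2 ^ (m + 1) : ℤ) : ℤ⟦X⟧) * ((r ^ 2 - 1) * Polynomial.aeval r (s + q)) := by
    rw [add_mul, one_mul, mul_assoc, map_add, U_int, h1, hq, map_add]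
    push_cast
    ring
  rw [b_eq _ _ (N + 1 + (m + 2)) (by omega), b_eq _ _ (N + (m + 2)) (by omega),
    show 2 ^ (m + t + 3) * n = 2 ^ (m + 2) * (2 * (2 ^ t * n)) by ring,
    show 2 ^ (m + t + 2) * n = 2 ^ (m + 2) * (2 ^ t * n) by ring, hp, hp, ← coeff_U, P_succ,
    ← mul_assoc, U_mul_expand, e, add_mul _ _ (P _ N), map_add, mul_assoc,
    ← zsmul_eq_mul (_ * _), map_zsmul, smul_eq_mul]
  refine (Int.modEq_iff_dvd.mpr ?_).symm
  rw [add_sub_cancel_left, show (2 : ℤ) ^ (m + t + 3) = 2 ^ (m + 1) * 2 ^ (t + 2) by ring]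
  exact mul_dvd_mul_left _ h2

theorem main (m k n : ℕ) (hm : 1 ≤ m) (hk : m + 2 ≤ k) :
    b (2 ^ m) (2 ^ (k + 1) * n) ≡ b (2 ^ m) (2 ^ (k - 1) * n) [ZMOD 2 ^ k] := by
  obtain ⟨m, rfl⟩ := Nat.exists_eq_add_of_le' hm
  obtain ⟨t, rfl⟩ : ∃ t, k = m + t + 3 := ⟨k - m - 3, by omega⟩
  exact ((half m (t + 1) n).of_dvd (pow_dvd_pow 2 (by omega))).trans (half m t n)

end Pool.Agent.H.MP_06821b_nt
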